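import Pool.Agent.Lib.MP_6bc78b_nt.GP.Iface

/-! Project GP, module ARE: the area integral in polar coordinates. -/

set_option autoImplicit false

open MeasureTheory Complex Filter Topology Set
open scoped ENNReal

namespace Pool.Agent.Lib.MP_6bc78b_nt.GP.H13

lemma log_ge_four {T : ℝ} (hT : 100 ≤ T) : 4 ≤ Real.log T := by
  rw [Real.le_log_iff_exp_le (by linarith)]
  have h1 : Real.exp 1 < 2.7182818286 := Real.exp_one_lt_d9
  have h2 : Real.exp 4 = Real.exp 1 ^ 4 := by
    rw [← Real.exp_nat_mul]; norm_num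
  rw [h2]
  have h3 : Real.exp 1 ^ 4 ≤ 2.7182818286 ^ 4 := pow_le_pow_left₀ (Real.exp_pos 1).le h1.le 4
  have h4 : (2.7182818286 : ℝ) ^ 4 ≤ 100 := by norm_num
  linarith

lemma rpow_bd (b : ℝ) (hb : 0 < b) : ∃ K : ℝ, 0 < K ∧ ∀ T κ r : ℝ, 100 ≤ T → 0 < κ → κ ≤ 1 →
    0 < r → r ≤ b * (Real.pi / 2) / (T * κ) → r ≤ r ^ (2 * cT T - 1) * (K / (T * κ)) := by
  set β : ℝ := b * (Real.pi / 2) with hβ
  have hβ0 : 0 < β := by rw [hβ]; positivity
  refine ⟨β * max 1 β⁻¹ * Real.exp 2, by positivity, ?_⟩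
  intro T κ r hT hκ hκ1 hr hrle
  have hL := log_ge_four hT
  have hL0 : 0 < Real.log T := by linarith
  have hT0 : 0 < T := by linarith
  set p : ℝ := 2 / Real.log T with hp
  have hp0 : 0 < p := by rw [hp]; positivity
  have hp1 : p ≤ 1 / 2 := by
    rw [hp, div_le_div_iff₀ hL0 (by norm_num)]; linarith
  have hc : 2 * cT T - 1 = p := by unfold cT; rw [hp]; ring
  rw [hc]
  have hTκ : 0 < T * κ := by positivity
  set rp : ℝ := β / (T * κ) with hrp
  have hrp0 : 0 < rp := by rw [hrp]; positivity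
  have h1 : r = r ^ p * r ^ (1 - p) := by
    rw [← Real.rpow_add hr]; norm_num
  have h2 : r ^ (1 - p) ≤ rp ^ (1 - p) := Real.rpow_le_rpow hr.le hrle (by linarith)
  have h3 : rp ^ (1 - p) = rp * rp ^ (-p) := by
    rw [sub_eq_add_neg, Real.rpow_add hrp0, Real.rpow_one]
  have h4 : rp ^ (-p) ≤ (β / T) ^ (-p) := by
    apply Real.rpow_le_rpow_of_nonpos (by positivity) _ (by linarith)
    rw [hrp]
    apply div_le_div_of_nonneg_left hβ0.le hTκ
    nlinarith
  have h5 : (β / T) ^ (-p) = β ^ (-p) * T ^ p := by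
    rw [Real.div_rpow hβ0.le hT0.le, Real.rpow_neg hT0.le, div_inv_eq_mul]
  have h6 : T ^ p = Real.exp 2 := by
    rw [Real.rpow_def_of_pos hT0, hp]
    congr 1
    field_simp
  have h7 : β ^ (-p) ≤ max 1 β⁻¹ := by
    rw [Real.rpow_neg hβ0.le, ← Real.inv_rpow hβ0.le]
    rcases le_total 1 β⁻¹ with h | h
    · calc β⁻¹ ^ p ≤ β⁻¹ ^ (1 : ℝ) := Real.rpow_le_rpow_of_exponent_le h (by linarith)
        _ = β⁻¹ := Real.rpow_one _
        _ ≤ _ := le_max_right _ _
    · exact (Real.rpow_le_one (by positivity) h hp0.le).trans (le_max_left _ _)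
  have h8 : rp ^ (-p) ≤ max 1 β⁻¹ * Real.exp 2 := by
    rw [h5, h6] at h4
    exact h4.trans (mul_le_mul_of_nonneg_right h7 (Real.exp_pos 2).le)
  have h9 : r ^ (1 - p) ≤ β * max 1 β⁻¹ * Real.exp 2 / (T * κ) := by
    calc r ^ (1 - p) ≤ rp * rp ^ (-p) := h2.trans (le_of_eq h3)
      _ ≤ rp * (max 1 β⁻¹ * Real.exp 2) := mul_le_mul_of_nonneg_left h8 hrp0.le
      _ = β * max 1 β⁻¹ * Real.exp 2 / (T * κ) := by rw [hrp]; ring
  calc r = r ^ p * r ^ (1 - p) := h1
    _ ≤ r ^ p * (β * max 1 β⁻¹ * Real.exp 2 / (T * κ)) :=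
      mul_le_mul_of_nonneg_left h9 (Real.rpow_nonneg hr.le _)

/-- `∫ 1/(x² + A²) dx ≤ π/A` over the line. -/
lemma lint_cauchy {A : ℝ} (hA : 0 < A) :
    ∫⁻ x : ℝ, ENNReal.ofReal (1 / (x ^ 2 + A ^ 2)) = ENNReal.ofReal (Real.pi / A) := by
  have h1 : Integrable (fun x : ℝ => (1 + x ^ 2)⁻¹) := integrable_inv_one_add_sq
  have h2 : (fun x : ℝ => 1 / (x ^ 2 + A ^ 2)) = fun x : ℝ => A⁻¹ ^ 2 * (1 + (A⁻¹ * x) ^ 2)⁻¹ := by
    funext x
    have : 0 < x ^ 2 + A ^ 2 := by positivity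
    field_simp
    ring
  have h3 : Integrable (fun x : ℝ => 1 / (x ^ 2 + A ^ 2)) := by
    rw [h2]
    exact (h1.comp_mul_left' (by positivity : A⁻¹ ≠ 0)).const_mul _
  rw [← ofReal_integral_eq_lintegral_ofReal h3 (Filter.Eventually.of_forall fun x => by positivity)]
  congr 1
  rw [h2, integral_const_mul, Measure.integral_comp_mul_left (fun y : ℝ => (1 + y ^ 2)⁻¹) A⁻¹,
    integral_univ_inv_one_add_sq]
  rw [inv_inv, abs_of_pos hA, smul_eq_mul]
  field_simp

/-- The strip. -/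
def St (a b R T : ℝ) : Set ℂ := {z : ℂ | a / T ≤ z.re ∧ z.re ≤ b / T ∧ |z.im| ≤ R}

lemma St_meas (a b R T : ℝ) : MeasurableSet (St a b R T) := by
  unfold St
  exact (measurableSet_le measurable_const Complex.measurable_re).inter
    ((measurableSet_le Complex.measurable_re measurable_const).inter
      (measurableSet_le (Complex.measurable_im.abs) measurable_const))

/-- The pointwise facts on the ray. -/
lemma ray_facts {a b R T φ r : ℝ} (ha : 0 < a) (hT : 0 < T) (hr : 0 < r)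
    (hφ : |φ| < Real.pi / 2) (hz : ((r : ℂ) * (Real.cos φ + Real.sin φ * I)) ∈ St a b R T) :
    r ≤ b * (Real.pi / 2) / (T * min (Real.pi / 2 - |φ|) 1) ∧
    (Real.pi / 2 - |φ| ≤ 1 → a / (2 * T * (Real.pi / 2 - |φ|)) ≤ |r * Real.sin φ| ∧
      a / (2 * T * (Real.pi / 2 - |φ|)) ≤ R) := by
  set k : ℝ := Real.pi / 2 - |φ| with hk
  have hk0 : 0 < k := by rw [hk]; linarith
  have hk2 : k ≤ Real.pi / 2 := by rw [hk]; linarith [abs_nonneg φ]
  have hre : ((r : ℂ) * (Real.cos φ + Real.sin φ * I)).re = r * Real.cos φ := by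
    simp only [Complex.mul_re, Complex.add_re, Complex.ofReal_re, Complex.ofReal_im,
      Complex.add_im, Complex.mul_im, Complex.I_re, Complex.I_im]
    ring
  have him : ((r : ℂ) * (Real.cos φ + Real.sin φ * I)).im = r * Real.sin φ := by
    simp only [Complex.mul_re, Complex.add_re, Complex.ofReal_re, Complex.ofReal_im,
      Complex.add_im, Complex.mul_im, Complex.I_re, Complex.I_im]
    ring
  obtain ⟨h1, h2, h3⟩ := hz
  rw [hre] at h1 h2
  rw [him] at h3
  have hcos : Real.cos φ = Real.sin k := by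
    rw [hk, Real.sin_pi_div_two_sub, Real.cos_abs]
  rw [hcos] at h1 h2
  have hs1 : 2 / Real.pi * k ≤ Real.sin k := Real.mul_le_sin hk0.le hk2
  have hs2 : Real.sin k ≤ k := Real.sin_le hk0.le
  have hm0 : 0 < min k 1 := lt_min hk0 one_pos
  constructor
  · rw [le_div_iff₀ (by positivity)]
    have h4 : r * (2 / Real.pi * min k 1) ≤ b / T := by
      refine le_trans (mul_le_mul_of_nonneg_left ?_ hr.le) h2
      exact (mul_le_mul_of_nonneg_left (min_le_left _ _) (by positivity)).trans hs1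
    rw [le_div_iff₀ hT] at h4
    have h5 : r * (T * min k 1) = (r * (2 / Real.pi * min k 1) * T) * (Real.pi / 2) := by
      field_simp
    rw [h5]
    exact mul_le_mul_of_nonneg_right h4 (by positivity)
  · intro hk1
    have h6 : a / T ≤ r * k := h1.trans (mul_le_mul_of_nonneg_left hs2 hr.le)
    have h7 : a / (T * k) ≤ r := by
      rw [div_le_iff₀ (by positivity)]
      rw [div_le_iff₀ hT] at h6
      linarith
    have hsin : |Real.sin φ| = Real.cos k := by
      rw [hk, Real.cos_pi_div_two_sub]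
      rcases abs_cases φ with ⟨h, h'⟩ | ⟨h, h'⟩
      · rw [h, abs_of_nonneg (Real.sin_nonneg_of_nonneg_of_le_pi h' (by
          rw [h] at hφ; linarith [Real.pi_pos]))]
      · rw [h, Real.sin_neg, abs_of_nonpos (Real.sin_nonpos_of_nonpos_of_neg_pi_le h'.le (by
          rw [h] at hφ; linarith [Real.pi_pos]))]
    have hcosk : 1 / 2 ≤ Real.cos k := by
      have h8 : Real.cos (Real.pi / 3) ≤ Real.cos k := by
        apply Real.cos_le_cos_of_nonneg_of_le_pi hk0.le (by linarith [Real.pi_pos])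
        have := Real.pi_gt_three
        linarith
      rwa [Real.cos_pi_div_three] at h8
    have h9 : a / (2 * T * k) ≤ |r * Real.sin φ| := by
      rw [abs_mul, hsin, abs_of_pos hr]
      calc a / (2 * T * k) = a / (T * k) * (1 / 2) := by field_simp
        _ ≤ r * Real.cos k := mul_le_mul h7 hcosk (by norm_num) hr.le
    exact ⟨h9, h9.trans h3⟩

/-- The integrand. -/
noncomputable def gg (A B κ₀ H : ℝ) (z : ℂ) : ℝ≥0∞ :=
  ENNReal.ofReal (‖EE A B z‖ ^ 2 * Real.exp (-(κ₀ * H ^ 2 * z.im ^ 2)))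

/-- exponential against the Cauchy kernel -/
lemma exp_cauchy {k y : ℝ} (hk : 0 < k) (hy : 0 < y) :
    Real.exp (-(y ^ 2 / k ^ 2)) / k ^ 2 ≤ 1 / (k ^ 2 + y ^ 2) := by
  have h1 : y ^ 2 / k ^ 2 + 1 ≤ Real.exp (y ^ 2 / k ^ 2) := Real.add_one_le_exp _
  rw [Real.exp_neg]
  have hE : 0 < Real.exp (y ^ 2 / k ^ 2) := Real.exp_pos _
  have h2 : k ^ 2 + y ^ 2 ≤ k ^ 2 * Real.exp (y ^ 2 / k ^ 2) := by
    calc k ^ 2 + y ^ 2 = k ^ 2 * (y ^ 2 / k ^ 2 + 1) := by field_simp; ring
      _ ≤ _ := mul_le_mul_of_nonneg_left h1 (by positivity)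
  rw [div_le_div_iff₀ (by positivity) (by positivity)]
  rw [inv_mul_le_iff₀ hE]
  linarith

/-- The inner integral over a ray. -/
lemma inner {A B a b R κ₀ K C1 T H φ : ℝ} (ha : 0 < a) (hκ₀ : 0 < κ₀) (hK : 0 < K)
    (hC1 : 0 < C1) (hT : 100 ≤ T) (hTR : 2 * R ≤ a * T) (hH : 0 < H) (hφ : |φ| < Real.pi / 2)
    (hKr : ∀ κ r : ℝ, 0 < κ → κ ≤ 1 → 0 < r → r ≤ b * (Real.pi / 2) / (T * κ) →
      r ≤ r ^ (2 * cT T - 1) * (K / (T * κ)))
    (hray : ∀ κ : ℝ, 1 / T ^ 2 ≤ κ → κ ≤ 1 → |φ| ≤ Real.pi / 2 - κ →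
      ∫⁻ r in Ioi (0 : ℝ), ENNReal.ofReal (‖EE A B (r * Complex.exp (φ * I))‖ ^ 2 *
        r ^ (2 * cT T - 1)) ≤ ENNReal.ofReal (C1 * Real.log T ^ 7 / κ)) :
    ∫⁻ r in Ioi (0 : ℝ), ENNReal.ofReal r * (St a b R T).indicator (gg A B κ₀ H)
      ((r : ℂ) * (Real.cos φ + Real.sin φ * I)) ≤
    ENNReal.ofReal (K * C1 * Real.log T ^ 7 / T *
      (1 + 1 / ((Real.pi / 2 - |φ|) ^ 2 + (Real.sqrt κ₀ * H * a / (2 * T)) ^ 2))) := by
  set k : ℝ := Real.pi / 2 - |φ| with hk
  have hk0 : 0 < k := by rw [hk]; linarith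
  have hT0 : 0 < T := by linarith
  have hL : 0 < Real.log T := by linarith [log_ge_four hT]
  set Y : ℝ := Real.sqrt κ₀ * H * a / (2 * T) with hY
  have hY0 : 0 < Y := by rw [hY]; positivity
  have hexp : ∀ r : ℝ, (r : ℂ) * (Real.cos φ + Real.sin φ * I) = r * Complex.exp (φ * I) := by
    intro r
    rw [Complex.exp_mul_I]
    push_cast
    ring
  by_cases hsmall : k < 1 / T ^ 2
  · -- nothing in the strip
    have h0 : ∀ r ∈ Ioi (0 : ℝ), ENNReal.ofReal r * (St a b R T).indicator (gg A B κ₀ H)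
        ((r : ℂ) * (Real.cos φ + Real.sin φ * I)) = 0 := by
      intro r hr
      rw [Set.indicator_of_notMem, mul_zero]
      intro hz
      obtain ⟨_, h2⟩ := ray_facts ha hT0 hr hφ hz
      have hk1 : k ≤ 1 := by
        have : 1 / T ^ 2 ≤ 1 := by
          rw [div_le_one (by positivity)]
          nlinarith
        linarith
      have h3 := (h2 hk1).2
      rw [← hk, div_le_iff₀ (by positivity)] at h3
      have h4 : k * T ^ 2 < 1 := by
        rwa [lt_div_iff₀ (by positivity)] at hsmall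
      have h5 : R * (2 * T * k) ≤ a * T * (T * k) := by
        have := mul_le_mul_of_nonneg_right hTR (by positivity : 0 ≤ T * k)
        linarith
      have h6 : a * T * (T * k) = a * (k * T ^ 2) := by ring
      have h7 : a * (k * T ^ 2) < a * 1 := mul_lt_mul_of_pos_left h4 ha
      linarith
    rw [setLIntegral_congr_fun measurableSet_Ioi h0]
    simp
  rw [not_lt] at hsmall
  set κ : ℝ := min k 1 with hκ
  have hκ0 : 0 < κ := lt_min hk0 one_pos
  have hκ1 : κ ≤ 1 := min_le_right _ _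
  have hκT : 1 / T ^ 2 ≤ κ := by
    apply le_min hsmall
    rw [div_le_one (by positivity)]
    nlinarith
  have hφκ : |φ| ≤ Real.pi / 2 - κ := by
    have : κ ≤ k := min_le_left _ _
    rw [hk] at this; linarith
  -- the weight
  set w : ℝ := if k ≤ 1 then Real.exp (-(Y ^ 2 / k ^ 2)) else 1 with hw
  have hw0 : 0 ≤ w := by rw [hw]; split_ifs <;> positivity
  have hpt : ∀ r ∈ Ioi (0 : ℝ), ENNReal.ofReal r * (St a b R T).indicator (gg A B κ₀ H)
      ((r : ℂ) * (Real.cos φ + Real.sin φ * I)) ≤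
      ENNReal.ofReal (K / (T * κ) * w) * ENNReal.ofReal (‖EE A B (r * Complex.exp (φ * I))‖ ^ 2 *
        r ^ (2 * cT T - 1)) := by
    intro r hr
    have hr0 : 0 < r := hr
    by_cases hz : ((r : ℂ) * (Real.cos φ + Real.sin φ * I)) ∈ St a b R T
    · rw [Set.indicator_of_mem hz, ← ENNReal.ofReal_mul (by positivity)]
      unfold gg
      rw [← ENNReal.ofReal_mul hr0.le]
      apply ENNReal.ofReal_le_ofReal
      obtain ⟨h1, h2⟩ := ray_facts ha hT0 hr0 hφ hz
      have h3 := hKr κ r hκ0 hκ1 hr0 h1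
      have him : ((r : ℂ) * (Real.cos φ + Real.sin φ * I)).im = r * Real.sin φ := by
        simp only [Complex.mul_re, Complex.add_re, Complex.ofReal_re, Complex.ofReal_im,
          Complex.add_im, Complex.mul_im, Complex.I_re, Complex.I_im]
        ring
      rw [him, hexp r]
      have h4 : Real.exp (-(κ₀ * H ^ 2 * (r * Real.sin φ) ^ 2)) ≤ w := by
        rw [hw]
        split_ifs with hk1
        · apply Real.exp_le_exp.2
          have h5 := (h2 hk1).1
          have h6 : (a / (2 * T * k)) ^ 2 ≤ (r * Real.sin φ) ^ 2 := by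
            rw [← sq_abs (r * Real.sin φ)]
            exact pow_le_pow_left₀ (by positivity) h5 2
          have h7 : Y ^ 2 / k ^ 2 = κ₀ * H ^ 2 * (a / (2 * T * k)) ^ 2 := by
            rw [hY]
            rw [div_pow, mul_pow, mul_pow, Real.sq_sqrt hκ₀.le]
            field_simp
          rw [h7]
          have := mul_le_mul_of_nonneg_left h6 (by positivity : 0 ≤ κ₀ * H ^ 2)
          linarith
        · rw [Real.exp_le_one_iff]
          have : 0 ≤ κ₀ * H ^ 2 * (r * Real.sin φ) ^ 2 := by positivity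
          linarith
      have hE : 0 ≤ ‖EE A B (r * Complex.exp (φ * I))‖ ^ 2 := by positivity
      have hrp : 0 ≤ r ^ (2 * cT T - 1) := Real.rpow_nonneg hr0.le _
      calc r * (‖EE A B (r * Complex.exp (φ * I))‖ ^ 2 *
            Real.exp (-(κ₀ * H ^ 2 * (r * Real.sin φ) ^ 2)))
          ≤ (r ^ (2 * cT T - 1) * (K / (T * κ))) *
              (‖EE A B (r * Complex.exp (φ * I))‖ ^ 2 * w) := by
            apply mul_le_mul h3 (mul_le_mul_of_nonneg_left h4 hE)
              (mul_nonneg hE (Real.exp_pos _).le)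
            exact mul_nonneg hrp (by positivity)
        _ = _ := by ring
    · rw [Set.indicator_of_notMem hz, mul_zero]
      exact zero_le
  calc ∫⁻ r in Ioi (0 : ℝ), ENNReal.ofReal r * (St a b R T).indicator (gg A B κ₀ H)
        ((r : ℂ) * (Real.cos φ + Real.sin φ * I))
      ≤ ∫⁻ r in Ioi (0 : ℝ), ENNReal.ofReal (K / (T * κ) * w) *
          ENNReal.ofReal (‖EE A B (r * Complex.exp (φ * I))‖ ^ 2 * r ^ (2 * cT T - 1)) :=
        setLIntegral_mono' measurableSet_Ioi hpt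
    _ = ENNReal.ofReal (K / (T * κ) * w) * ∫⁻ r in Ioi (0 : ℝ),
          ENNReal.ofReal (‖EE A B (r * Complex.exp (φ * I))‖ ^ 2 * r ^ (2 * cT T - 1)) :=
        lintegral_const_mul' _ _ ENNReal.ofReal_ne_top
    _ ≤ ENNReal.ofReal (K / (T * κ) * w) * ENNReal.ofReal (C1 * Real.log T ^ 7 / κ) := by
        gcongr
        exact hray κ hκT hκ1 hφκ
    _ = ENNReal.ofReal (K / (T * κ) * w * (C1 * Real.log T ^ 7 / κ)) :=
        (ENNReal.ofReal_mul (by positivity)).symm
    _ ≤ _ := by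
        apply ENNReal.ofReal_le_ofReal
        have h8 : K / (T * κ) * w * (C1 * Real.log T ^ 7 / κ) =
            K * C1 * Real.log T ^ 7 / T * (w / κ ^ 2) := by
          field_simp
        rw [h8]
        apply mul_le_mul_of_nonneg_left _ (by positivity)
        rw [hw]
        split_ifs with hk1
        · rw [hκ, min_eq_left hk1]
          have := exp_cauchy hk0 hY0
          linarith
        · rw [hκ, min_eq_right (by linarith)]
          have : 0 ≤ 1 / (k ^ 2 + Y ^ 2) := by positivity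
          linarith

lemma inner_zero {A B a b R κ₀ T H φ : ℝ} (ha : 0 < a) (hT : 0 < T) (hφ : Real.pi / 2 ≤ |φ|)
    (hφπ : |φ| < Real.pi) :
    ∫⁻ r in Ioi (0 : ℝ), ENNReal.ofReal r * (St a b R T).indicator (gg A B κ₀ H)
      ((r : ℂ) * (Real.cos φ + Real.sin φ * I)) = 0 := by
  have h0 : ∀ r ∈ Ioi (0 : ℝ), ENNReal.ofReal r * (St a b R T).indicator (gg A B κ₀ H)
        ((r : ℂ) * (Real.cos φ + Real.sin φ * I)) = 0 := by
    intro r hr
    have hr0 : 0 < r := hr
    rw [Set.indicator_of_notMem, mul_zero]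
    intro hz
    have hre : ((r : ℂ) * (Real.cos φ + Real.sin φ * I)).re = r * Real.cos φ := by
      simp only [Complex.mul_re, Complex.add_re, Complex.ofReal_re, Complex.ofReal_im,
        Complex.add_im, Complex.mul_im, Complex.I_re, Complex.I_im]
      ring
    have h1 := hz.1
    rw [hre] at h1
    have h2 : Real.cos φ ≤ 0 := by
      rw [← Real.cos_abs]
      exact Real.cos_nonpos_of_pi_div_two_le_of_le hφ (by linarith)
    have h3 : 0 < a / T := by positivity
    have h4 : r * Real.cos φ ≤ 0 := mul_nonpos_of_nonneg_of_nonpos hr0.le h2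
    linarith
  rw [setLIntegral_congr_fun measurableSet_Ioi h0]
  simp

lemma two_kernels {Y φ : ℝ} (hY : 0 < Y) :
    1 / ((Real.pi / 2 - |φ|) ^ 2 + Y ^ 2) ≤
      1 / ((φ - Real.pi / 2) ^ 2 + Y ^ 2) + 1 / ((φ + Real.pi / 2) ^ 2 + Y ^ 2) := by
  have h1 : 0 ≤ 1 / ((φ - Real.pi / 2) ^ 2 + Y ^ 2) := by positivity
  have h2 : 0 ≤ 1 / ((φ + Real.pi / 2) ^ 2 + Y ^ 2) := by positivity
  rcases abs_cases φ with ⟨h, h'⟩ | ⟨h, h'⟩
  · rw [h, show (Real.pi / 2 - φ) ^ 2 = (φ - Real.pi / 2) ^ 2 by ring]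
    linarith
  · rw [h, show (Real.pi / 2 - -φ) ^ 2 = (φ + Real.pi / 2) ^ 2 by ring]
    linarith

theorem are (hR : RAYStatement) : AREStatement := by
  intro hRH A B D hD a b R κ₀ ha hab hR0 hκ₀
  obtain ⟨C1, T1, hC1, hT1, hray⟩ := hR hRH A B D hD
  obtain ⟨K, hK, hKr⟩ := rpow_bd b (ha.trans hab)
  have hs : 0 < Real.sqrt κ₀ := Real.sqrt_pos.2 hκ₀
  refine ⟨K * C1 * (2 * Real.pi + 4 * Real.pi / (Real.sqrt κ₀ * a)), max (max T1 100) (2 * R / a),
    by positivity, ?_, ?_⟩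
  · exact lt_of_lt_of_le (by norm_num) ((le_max_right T1 100).trans (le_max_left _ _))
  intro T H hT hH1 hHT
  have hT1' : T1 ≤ T := ((le_max_left T1 100).trans (le_max_left _ _)).trans hT
  have hT100 : 100 ≤ T := ((le_max_right T1 100).trans (le_max_left _ _)).trans hT
  have hTR : 2 * R ≤ a * T := by
    have := (le_max_right (max T1 100) (2 * R / a)).trans hT
    rw [div_le_iff₀ ha] at this
    linarith
  have hT0 : 0 < T := by linarith
  have hH0 : 0 < H := by linarith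
  have hL : 0 < Real.log T := by linarith [log_ge_four hT100]
  set Y : ℝ := Real.sqrt κ₀ * H * a / (2 * T) with hY
  have hY0 : 0 < Y := by rw [hY]; positivity
  set Cc : ℝ := K * C1 * Real.log T ^ 7 / T with hCc
  have hCc0 : 0 < Cc := by rw [hCc]; positivity
  have hinner : ∀ φ : ℝ, φ ∈ Ioo (-Real.pi) Real.pi →
      ∫⁻ r in Ioi (0 : ℝ), ENNReal.ofReal r * (St a b R T).indicator (gg A B κ₀ H)
      ((r : ℂ) * (Real.cos φ + Real.sin φ * I)) ≤
      ENNReal.ofReal Cc * (1 + (ENNReal.ofReal (1 / ((φ - Real.pi / 2) ^ 2 + Y ^ 2)) +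
        ENNReal.ofReal (1 / ((φ + Real.pi / 2) ^ 2 + Y ^ 2)))) := by
    intro φ hφ
    rcases lt_or_ge |φ| (Real.pi / 2) with h | h
    · refine (inner ha hκ₀ hK hC1 hT100 hTR hH0 h (fun κ r => hKr T κ r hT100) (fun κ h1 h2 h3 =>
        hray T κ φ hT1' h1 h2 h3)).trans ?_
      rw [ENNReal.ofReal_mul hCc0.le]
      gcongr
      rw [show (1 : ℝ≥0∞) = ENNReal.ofReal 1 by simp, ← ENNReal.ofReal_add (by positivity)
        (by positivity), ← ENNReal.ofReal_add (by norm_num) (by positivity)]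
      apply ENNReal.ofReal_le_ofReal
      have := two_kernels (φ := φ) hY0
      linarith
    · rw [inner_zero ha hT0 h (abs_lt.2 ⟨hφ.1, hφ.2⟩)]
      exact zero_le
  have hpolar : ∫⁻ z in St a b R T, gg A B κ₀ H z ≤
      ∫⁻ φ in Ioo (-Real.pi) Real.pi, ∫⁻ r in Ioi (0 : ℝ), ENNReal.ofReal r *
        (St a b R T).indicator (gg A B κ₀ H) ((r : ℂ) * (Real.cos φ + Real.sin φ * I)) := by
    rw [← lintegral_indicator (St_meas a b R T), ← Complex.lintegral_comp_polarCoord_symm]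
    rw [show polarCoord.target = Ioi (0 : ℝ) ×ˢ Ioo (-Real.pi) Real.pi from rfl]
    rw [show (volume : Measure (ℝ × ℝ)) = volume.prod volume from rfl, ← Measure.prod_restrict]
    rw [← lintegral_prod_swap]
    refine (lintegral_prod_le _).trans (le_of_eq ?_)
    apply lintegral_congr
    intro φ
    apply lintegral_congr
    intro r
    simp only [Prod.swap_prod_mk, smul_eq_mul, Complex.polarCoord_symm_apply]
  have hshift : ∀ c : ℝ, ∫⁻ φ : ℝ, ENNReal.ofReal (1 / ((φ + c) ^ 2 + Y ^ 2)) =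
      ENNReal.ofReal (Real.pi / Y) := by
    intro c
    rw [← lint_cauchy hY0]
    exact lintegral_add_right_eq_self (fun x => ENNReal.ofReal (1 / (x ^ 2 + Y ^ 2))) c
  have hmeas : ∀ c : ℝ, Measurable (fun φ : ℝ => ENNReal.ofReal (1 / ((φ + c) ^ 2 + Y ^ 2))) := by
    intro c; fun_prop
  calc ∫⁻ z in {z : ℂ | a / T ≤ z.re ∧ z.re ≤ b / T ∧ |z.im| ≤ R},
      ENNReal.ofReal (‖EE A B z‖ ^ 2 * Real.exp (-(κ₀ * H ^ 2 * z.im ^ 2)))
      = ∫⁻ z in St a b R T, gg A B κ₀ H z := rfl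
    _ ≤ _ := hpolar
    _ ≤ ∫⁻ φ in Ioo (-Real.pi) Real.pi, ENNReal.ofReal Cc *
          (1 + (ENNReal.ofReal (1 / ((φ - Real.pi / 2) ^ 2 + Y ^ 2)) +
        ENNReal.ofReal (1 / ((φ + Real.pi / 2) ^ 2 + Y ^ 2)))) :=
        setLIntegral_mono' measurableSet_Ioo hinner
    _ = ENNReal.ofReal Cc * ∫⁻ φ in Ioo (-Real.pi) Real.pi,
          (1 + (ENNReal.ofReal (1 / ((φ - Real.pi / 2) ^ 2 + Y ^ 2)) +
        ENNReal.ofReal (1 / ((φ + Real.pi / 2) ^ 2 + Y ^ 2)))) :=
        lintegral_const_mul' _ _ ENNReal.ofReal_ne_top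
    _ ≤ ENNReal.ofReal Cc * (ENNReal.ofReal (2 * Real.pi) + (ENNReal.ofReal (Real.pi / Y) +
          ENNReal.ofReal (Real.pi / Y))) := by
        gcongr
        have hm1 := hmeas (-(Real.pi / 2))
        have hm2 := hmeas (Real.pi / 2)
        rw [lintegral_add_left measurable_const, lintegral_add_left (by
          simpa only [sub_eq_add_neg] using hm1)]
        gcongr
        · rw [setLIntegral_const, Real.volume_Ioo, one_mul]
          apply le_of_eq
          congr 1
          ring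
        · refine (setLIntegral_le_lintegral _ _).trans (le_of_eq ?_)
          have := hshift (-(Real.pi / 2))
          simpa only [sub_eq_add_neg] using this
        · exact (setLIntegral_le_lintegral _ _).trans (le_of_eq (hshift (Real.pi / 2)))
    _ = ENNReal.ofReal (Cc * (2 * Real.pi + (Real.pi / Y + Real.pi / Y))) := by
        rw [← ENNReal.ofReal_add (by positivity) (by positivity),
          ← ENNReal.ofReal_add (by positivity) (by positivity), ← ENNReal.ofReal_mul hCc0.le]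
    _ ≤ _ := by
        apply ENNReal.ofReal_le_ofReal
        have hX : 0 < K * C1 * Real.log T ^ 7 := by positivity
        have h1 : Cc * (2 * Real.pi + (Real.pi / Y + Real.pi / Y)) =
            K * C1 * Real.log T ^ 7 * (2 * Real.pi / T + 4 * Real.pi / (Real.sqrt κ₀ * a) / H) := by
          rw [hCc, hY]
          field_simp
          ring
        have h2 : K * C1 * (2 * Real.pi + 4 * Real.pi / (Real.sqrt κ₀ * a)) * Real.log T ^ 7 / H =
            K * C1 * Real.log T ^ 7 * (2 * Real.pi / H + 4 * Real.pi / (Real.sqrt κ₀ * a) / H) := by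
          ring
        rw [h1, h2]
        apply mul_le_mul_of_nonneg_left _ hX.le
        have h3 : 2 * Real.pi / T ≤ 2 * Real.pi / H :=
          div_le_div_of_nonneg_left (by positivity) hH0 hHT
        linarith

end Pool.Agent.Lib.MP_6bc78b_nt.GP.H13
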