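import Pool.Agent.Lib.MP_6bc78b_nt.GP.H11.Defs11

/-! Project GP11 (MP_6bc78b_nt), row FAM: a finite family of fixed Dirichlet polynomials, from the
rows TYP and SCG by induction over the scales. -/

set_option autoImplicit false

open Complex Filter Topology MeasureTheory ArithmeticFunction Set
open scoped ENNReal

namespace Pool.Agent.Lib.MP_6bc78b_nt.GP.H13F

open Pool.Agent.Lib.MP_6bc78b_nt.GP.G11

/-! ## Products of Dirichlet polynomials -/

/-- The support of a product. -/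
def pS (S S' : Finset ℕ) : Finset ℕ := (S ×ˢ S').image fun p => p.1 * p.2

/-- The coefficients of a product. -/
noncomputable def pa (S S' : Finset ℕ) (a a' : ℕ → ℂ) (k : ℕ) : ℂ :=
  ∑ p ∈ (S ×ˢ S').filter (fun p => p.1 * p.2 = k), a p.1 * a' p.2

theorem push (S S' : Finset ℕ) (a a' : ℕ → ℂ) (F : ℕ → ℂ) :
    ∑ k ∈ pS S S', pa S S' a a' k * F k =
      ∑ m ∈ S, ∑ m' ∈ S', a m * a' m' * F (m * m') := by
  classical
  rw [← Finset.sum_product' (s := S) (t := S') (f := fun m m' => a m * a' m' * F (m * m'))]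
  rw [← Finset.sum_fiberwise_of_maps_to (s := S ×ˢ S') (t := pS S S')
    (g := fun p : ℕ × ℕ => p.1 * p.2)
    (fun p hp => Finset.mem_image_of_mem _ hp)]
  refine Finset.sum_congr rfl fun k _ => ?_
  unfold pa
  rw [Finset.sum_mul]
  refine Finset.sum_congr rfl fun p hp => ?_
  rw [(Finset.mem_filter.1 hp).2]

theorem conj_pa (S S' : Finset ℕ) (a a' : ℕ → ℂ) (k : ℕ) :
    (starRingEnd ℂ) (pa S S' a a' k) =
      pa S S' (fun m => (starRingEnd ℂ) (a m)) (fun m => (starRingEnd ℂ) (a' m)) k := by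
  unfold pa
  rw [map_sum]
  refine Finset.sum_congr rfl fun p _ => ?_
  rw [map_mul]

theorem cA_prod (S S' : Finset ℕ) (a a' : ℕ → ℂ) (s : ℂ) :
    cA (pS S S') (pa S S' a a') s = cA S a s * cA S' a' s := by
  unfold cA
  rw [push S S' a a' (fun k => (k : ℂ) ^ (-s)), Finset.sum_mul_sum]
  refine Finset.sum_congr rfl fun m _ => Finset.sum_congr rfl fun m' _ => ?_
  have h : ((m * m' : ℕ) : ℂ) ^ (-s) = (m : ℂ) ^ (-s) * (m' : ℂ) ^ (-s) := by
    push_cast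
    exact Complex.natCast_mul_natCast_cpow m m' (-s)
  rw [h]
  ring

/-! ## The form -/

/-- The complex form. -/
noncomputable def Qc (S : Finset ℕ) (a : ℕ → ℂ) : ℂ :=
  ∑ m ∈ S, ∑ m' ∈ S, a m * (starRingEnd ℂ) (a m') / (Nat.lcm m m' : ℂ)

theorem Qc_re (S : Finset ℕ) (a : ℕ → ℂ) : (Qc S a).re = Qf S a := rfl

theorem Qc_conj (S : Finset ℕ) (a : ℕ → ℂ) : (starRingEnd ℂ) (Qc S a) = Qc S a := by
  unfold Qc
  rw [map_sum]
  simp_rw [map_sum, map_div₀, map_mul, Complex.conj_conj, map_natCast]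
  rw [Finset.sum_comm]
  refine Finset.sum_congr rfl fun m _ => Finset.sum_congr rfl fun m' _ => ?_
  rw [Nat.lcm_comm m' m]
  ring

theorem Qc_eq (S : Finset ℕ) (a : ℕ → ℂ) : Qc S a = ((Qf S a : ℝ) : ℂ) := by
  rw [← Qc_re]
  exact (Complex.conj_eq_iff_re.1 (Qc_conj S a)).symm

/-- `lcm` of products with coprime supports. -/
theorem lcm_prod {m m' n n' : ℕ} (h1 : Nat.Coprime m m') (h2 : Nat.Coprime m n')
    (h3 : Nat.Coprime n m') (h4 : Nat.Coprime n n') :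
    Nat.lcm (m * m') (n * n') = Nat.lcm m n * Nat.lcm m' n' := by
  have hA : Nat.Coprime (Nat.lcm m n) (Nat.lcm m' n') := by
    have a1 : Nat.Coprime (m * n) (m' * n') :=
      Nat.Coprime.mul_left (Nat.Coprime.mul_right h1 h2) (Nat.Coprime.mul_right h3 h4)
    exact a1.coprime_dvd_left (Nat.lcm_dvd_mul m n) |>.coprime_dvd_right (Nat.lcm_dvd_mul m' n')
  apply Nat.dvd_antisymm
  · exact Nat.lcm_dvd (Nat.mul_dvd_mul (Nat.dvd_lcm_left m n) (Nat.dvd_lcm_left m' n'))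
      (Nat.mul_dvd_mul (Nat.dvd_lcm_right m n) (Nat.dvd_lcm_right m' n'))
  · refine Nat.Coprime.mul_dvd_of_dvd_of_dvd hA ?_ ?_
    · exact Nat.lcm_dvd ((Nat.dvd_mul_right m m').trans (Nat.dvd_lcm_left _ _))
        ((Nat.dvd_mul_right n n').trans (Nat.dvd_lcm_right _ _))
    · exact Nat.lcm_dvd ((Nat.dvd_mul_left m' m).trans (Nat.dvd_lcm_left _ _))
        ((Nat.dvd_mul_left n' n).trans (Nat.dvd_lcm_right _ _))

theorem Qc_prod (S S' : Finset ℕ) (a a' : ℕ → ℂ)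
    (h : ∀ m ∈ S, ∀ m' ∈ S', Nat.Coprime m m') :
    Qc (pS S S') (pa S S' a a') = Qc S a * Qc S' a' := by
  have e1 : Qc (pS S S') (pa S S' a a') = ∑ m ∈ S, ∑ m' ∈ S', a m * a' m' *
      ∑ n ∈ S, ∑ n' ∈ S', (starRingEnd ℂ) (a n) * (starRingEnd ℂ) (a' n') *
        (1 / (Nat.lcm (m * m') (n * n') : ℂ)) := by
    unfold Qc
    have e0 : ∀ k ∈ pS S S', ∑ k' ∈ pS S S', pa S S' a a' k *
        (starRingEnd ℂ) (pa S S' a a' k') / (Nat.lcm k k' : ℂ) =
        pa S S' a a' k * ∑ n ∈ S, ∑ n' ∈ S', (starRingEnd ℂ) (a n) * (starRingEnd ℂ) (a' n') *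
        (1 / (Nat.lcm k (n * n') : ℂ)) := by
      intro k _
      rw [← push S S' (fun m => (starRingEnd ℂ) (a m)) (fun m => (starRingEnd ℂ) (a' m))
        (fun k' => 1 / (Nat.lcm k k' : ℂ)), Finset.mul_sum]
      refine Finset.sum_congr rfl fun k' _ => ?_
      rw [conj_pa]
      ring
    rw [Finset.sum_congr rfl e0]
    exact push S S' a a' (fun k => ∑ n ∈ S, ∑ n' ∈ S', (starRingEnd ℂ) (a n) *
      (starRingEnd ℂ) (a' n') * (1 / (Nat.lcm k (n * n') : ℂ)))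
  rw [e1]
  unfold Qc
  rw [Finset.sum_mul_sum]
  refine Finset.sum_congr rfl fun m hm => Finset.sum_congr rfl fun m' hm' => ?_
  rw [Finset.sum_mul_sum, Finset.mul_sum]
  refine Finset.sum_congr rfl fun n hn => ?_
  rw [Finset.mul_sum]
  refine Finset.sum_congr rfl fun n' hn' => ?_
  rw [lcm_prod (h m hm m' hm') (h m hm n' hn') (h n hn m' hm') (h n hn n' hn')]
  push_cast
  rw [div_mul_div_comm]
  ring

theorem Qf_prod (S S' : Finset ℕ) (a a' : ℕ → ℂ)
    (h : ∀ m ∈ S, ∀ m' ∈ S', Nat.Coprime m m') :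
    Qf (pS S S') (pa S S' a a') = Qf S a * Qf S' a' := by
  have := Qc_prod S S' a a' h
  rw [Qc_eq, Qc_eq, Qc_eq] at this
  exact_mod_cast this

/-! ## The induction -/

theorem Py_norm (y : ℕ) (u : ℝ) :
    ‖Py y u‖ ≤ ∑ p ∈ (Finset.Icc 1 y).filter Nat.Prime, (p : ℝ) ^ (-(1 / 2 : ℝ)) := by
  unfold Py
  refine (norm_sum_le _ _).trans (Finset.sum_le_sum fun p hp => ?_)
  have hp' : 0 < p := (Finset.mem_filter.1 hp).2.pos
  rw [Complex.norm_natCast_cpow_of_pos hp']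
  simp

theorem Vy_nonneg (y : ℕ) : 0 ≤ Vy y := by
  unfold Vy
  exact Finset.sum_nonneg fun p _ => by positivity

/-- SCG with the constant `c` in place of `9/10`. -/
def SCGc (c : ℝ) : Prop := ∀ (y : ℕ) (K : ℝ), ∃ (y' : ℕ) (S : Fin 2 → Finset ℕ)
  (a : Fin 2 → ℕ → ℂ), y < y' ∧
    (∀ i, ∀ m ∈ S i, 1 ≤ m ∧ ∀ p : ℕ, p.Prime → p ∣ m → y < p ∧ p ≤ y') ∧
    (∀ u : ℝ, (Py y' u - Py y u).re ≤ Vy y' - Vy y + K →
      1 ≤ ∑ i, ‖cA (S i) (a i) (1 / 2 + u * I)‖ ^ 2) ∧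
    ∑ i, Qf (S i) (a i) ≤ c

theorem scales {c : ℝ} (hc : 0 ≤ c) (hq : QFNStatement) (hs : SCGc c) (r : ℕ) (K : ℝ) :
    ∃ (Y : Finset ℕ) (yr : ℕ) (ι : Type) (_ : Fintype ι) (S : ι → Finset ℕ) (a : ι → ℕ → ℂ),
      1 ≤ yr ∧ Y.card ≤ r ∧ (∀ y ∈ Y, 2 ≤ y) ∧
      (∀ i, ∀ m ∈ S i, 1 ≤ m ∧ ∀ p : ℕ, p.Prime → p ∣ m → p ≤ yr) ∧
      (∑ i, Qf (S i) (a i) ≤ c ^ r) ∧
      (∀ u : ℝ, (∀ y ∈ Y, (Py y u).re ≤ Vy y + K) →
        1 ≤ ∑ i, ‖cA (S i) (a i) (1 / 2 + u * I)‖ ^ 2) := by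
  induction r with
  | zero =>
    refine ⟨∅, 1, Unit, inferInstance, fun _ => {1}, fun _ _ => 1, le_rfl, by simp, by simp,
      ?_, ?_, ?_⟩
    · intro i m hm
      rw [Finset.mem_singleton] at hm
      subst hm
      refine ⟨le_rfl, fun p hp hd => ?_⟩
      exact absurd (Nat.dvd_one.1 hd) hp.one_lt.ne'
    · simp [Qf]
    · intro u _
      simp [cA]
  | succ r ih =>
    obtain ⟨Y, yr, ι, _, S, a, hyr, hcard, hY, hS, hQ, hG⟩ := ih
    obtain ⟨y', S', a', hy', hS', hG', hQ'⟩ := hs yr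
      (K + Vy yr + ∑ p ∈ (Finset.Icc 1 yr).filter Nat.Prime, (p : ℝ) ^ (-(1 / 2 : ℝ)))
    have hcop : ∀ (i : ι) (j : Fin 2), ∀ m ∈ S i, ∀ m' ∈ S' j, Nat.Coprime m m' := by
      intro i j m hm m' hm'
      refine Nat.coprime_of_dvd fun p hp h1 h2 => ?_
      have b1 := (hS i m hm).2 p hp h1
      have b2 := ((hS' j m' hm').2 p hp h2).1
      omega
    refine ⟨insert y' Y, y', ι × Fin 2, inferInstance, fun x => pS (S x.1) (S' x.2),
      fun x => pa (S x.1) (S' x.2) (a x.1) (a' x.2), by omega,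
      (Finset.card_insert_le _ _).trans (by omega), ?_, ?_, ?_, ?_⟩
    · intro y hy
      rcases Finset.mem_insert.1 hy with rfl | hy
      · omega
      · exact hY y hy
    · rintro ⟨i, j⟩ m hm
      obtain ⟨⟨m1, m2⟩, hmm, rfl⟩ := Finset.mem_image.1 hm
      obtain ⟨h1, h2⟩ := Finset.mem_product.1 hmm
      have d1 := hS i m1 h1
      have d2 := hS' j m2 h2
      refine ⟨Nat.mul_pos d1.1 d2.1, fun p hp hd => ?_⟩
      rcases (Nat.Prime.dvd_mul hp).1 hd with hd | hd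
      · exact (d1.2 p hp hd).trans hy'.le
      · exact (d2.2 p hp hd).2
    · have e1 : ∑ x : ι × Fin 2, Qf (pS (S x.1) (S' x.2)) (pa (S x.1) (S' x.2) (a x.1) (a' x.2)) =
          (∑ i, Qf (S i) (a i)) * ∑ j, Qf (S' j) (a' j) := by
        rw [Finset.sum_mul_sum, Fintype.sum_prod_type]
        refine Finset.sum_congr rfl fun i _ => Finset.sum_congr rfl fun j _ => ?_
        exact Qf_prod _ _ _ _ (hcop i j)
      rw [e1, pow_succ]
      have p1 : 0 ≤ ∑ j, Qf (S' j) (a' j) :=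
        Finset.sum_nonneg fun j _ => (hq (S' j) (a' j) fun m hm => (hS' j m hm).1).1
      exact mul_le_mul hQ hQ' p1 (by positivity)
    · intro u hu
      have e1 : ∑ x : ι × Fin 2, ‖cA (pS (S x.1) (S' x.2))
          (pa (S x.1) (S' x.2) (a x.1) (a' x.2)) (1 / 2 + u * I)‖ ^ 2 =
          (∑ i, ‖cA (S i) (a i) (1 / 2 + u * I)‖ ^ 2) *
            ∑ j, ‖cA (S' j) (a' j) (1 / 2 + u * I)‖ ^ 2 := by
        rw [Finset.sum_mul_sum, Fintype.sum_prod_type]
        refine Finset.sum_congr rfl fun i _ => Finset.sum_congr rfl fun j _ => ?_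
        rw [cA_prod, norm_mul, mul_pow]
      rw [e1]
      have g1 := hG u fun y hy => hu y (Finset.mem_insert_of_mem hy)
      have g2 := hu y' (Finset.mem_insert_self _ _)
      have g3 : -(∑ p ∈ (Finset.Icc 1 yr).filter Nat.Prime, (p : ℝ) ^ (-(1 / 2 : ℝ))) ≤
          (Py yr u).re := by
        have := (Complex.abs_re_le_norm (Py yr u)).trans (Py_norm yr u)
        exact (abs_le.1 this).1
      have g4 := hG' u (by
        rw [Complex.sub_re]
        have := Vy_nonneg yr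
        linarith)
      exact one_le_mul_of_one_le_of_one_le g1 g4

/-- FAM from TYP and SCG with any constant `c < 1`. -/
theorem fam_c {c : ℝ} (hc0 : 0 ≤ c) (hc1 : c < 1) (hq : QFNStatement) (ht : TYPStatement)
    (hs : SCGc c) : FAMStatement := by
  intro δ lam η hδ hlam hη
  obtain ⟨C, hC, ht⟩ := ht
  obtain ⟨r, hr⟩ := exists_pow_lt_of_lt_one hδ hc1
  set K : ℝ := C * lam * r / η with hKdef
  have hK : 0 ≤ K := by positivity
  obtain ⟨Y, yr, ι, _, S, a, hyr, hcard, hY, hS, hQ, hG⟩ := scales hc0 hq hs r K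
  let e := Fintype.equivFin ι
  refine ⟨Fintype.card ι, fun i => S (e.symm i), fun i => a (e.symm i),
    fun i m hm => (hS _ m hm).1, ?_, ?_⟩
  · have : ∑ i, Qf (S (e.symm i)) (a (e.symm i)) = ∑ i, Qf (S i) (a i) :=
      Equiv.sum_comp e.symm fun i => Qf (S i) (a i)
    rw [this]
    exact hQ.trans hr.le
  · have hT : ∀ y : ℕ, ∃ T0 : ℝ, 10 < T0 ∧ (2 ≤ y → ∀ T : ℝ, T0 ≤ T →
        volume {t : ℝ | T ≤ t ∧ t ≤ 2 * T ∧ ∃ u : ℝ, |u - t| ≤ lam ∧ Vy y + K < (Py y u).re} ≤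
          ENNReal.ofReal (C * lam * Real.exp (-(2 * K)) * T)) := by
      intro y
      by_cases hy : 2 ≤ y
      · obtain ⟨T0, h1, h2⟩ := ht y lam K hy hlam hK
        exact ⟨T0, h1, fun _ => h2⟩
      · exact ⟨11, by norm_num, fun h => absurd h hy⟩
    choose T0 hT0 hT1 using hT
    refine ⟨11 + ∑ y ∈ Y, T0 y, ?_, fun T hTT => ?_⟩
    · have : 0 ≤ ∑ y ∈ Y, T0 y := Finset.sum_nonneg fun y _ => by linarith [hT0 y]
      linarith
    have hTpos : 0 < T := by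
      have : 0 ≤ ∑ y ∈ Y, T0 y := Finset.sum_nonneg fun y _ => by linarith [hT0 y]
      linarith
    have hTy : ∀ y ∈ Y, T0 y ≤ T := by
      intro y hy
      have := Finset.single_le_sum (f := T0) (fun y _ => by linarith [hT0 y]) hy
      linarith
    have hsub : {t : ℝ | T ≤ t ∧ t ≤ 2 * T ∧ ∃ u : ℝ, |u - t| ≤ lam ∧
        ∑ i, ‖cA (S (e.symm i)) (a (e.symm i)) (1 / 2 + u * I)‖ ^ 2 < 1} ⊆
        ⋃ y ∈ Y, {t : ℝ | T ≤ t ∧ t ≤ 2 * T ∧ ∃ u : ℝ, |u - t| ≤ lam ∧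
          Vy y + K < (Py y u).re} := by
      rintro t ⟨h1, h2, u, h3, h4⟩
      have e4 : ∑ i, ‖cA (S (e.symm i)) (a (e.symm i)) (1 / 2 + u * I)‖ ^ 2 =
          ∑ i, ‖cA (S i) (a i) (1 / 2 + u * I)‖ ^ 2 :=
        Equiv.sum_comp e.symm fun i => ‖cA (S i) (a i) (1 / 2 + u * I)‖ ^ 2
      rw [e4] at h4
      by_contra hcon
      have : ∀ y ∈ Y, (Py y u).re ≤ Vy y + K := by
        intro y hy
        by_contra hlt
        push Not at hlt
        exact hcon (Set.mem_biUnion hy ⟨h1, h2, u, h3, hlt⟩)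
      exact absurd (hG u this) (not_le.2 h4)
    refine (measure_mono hsub).trans ((measure_biUnion_finset_le _ _).trans ?_)
    have hb : ∑ y ∈ Y, volume {t : ℝ | T ≤ t ∧ t ≤ 2 * T ∧ ∃ u : ℝ, |u - t| ≤ lam ∧
        Vy y + K < (Py y u).re} ≤
        ∑ _y ∈ Y, ENNReal.ofReal (C * lam * Real.exp (-(2 * K)) * T) :=
      Finset.sum_le_sum fun y hy => hT1 y (hY y hy) T (hTy y hy)
    refine hb.trans ?_
    rw [Finset.sum_const, ← ENNReal.ofReal_nsmul]
    apply ENNReal.ofReal_le_ofReal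
    rw [nsmul_eq_mul]
    have c1 : (Y.card : ℝ) ≤ r := by exact_mod_cast hcard
    have c2 : C * lam * r * Real.exp (-(2 * K)) ≤ η := by
      rw [Real.exp_neg, ← div_eq_mul_inv, div_le_iff₀ (Real.exp_pos _)]
      have c3 : K ≤ Real.exp (2 * K) := by
        have := Real.add_one_le_exp (2 * K)
        linarith
      have c4 : C * lam * r = η * K := by
        rw [hKdef]
        field_simp
      rw [c4]
      exact mul_le_mul_of_nonneg_left c3 hη.le
    calc (Y.card : ℝ) * (C * lam * Real.exp (-(2 * K)) * T)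
        ≤ r * (C * lam * Real.exp (-(2 * K)) * T) :=
          mul_le_mul_of_nonneg_right c1 (by positivity)
      _ = (C * lam * r * Real.exp (-(2 * K))) * T := by ring
      _ ≤ η * T := mul_le_mul_of_nonneg_right c2 hTpos.le

/-- Row FAM. -/
theorem fam (hq : QFNStatement) (ht : TYPStatement) (hs : SCGStatement) : FAMStatement :=
  fam_c (by norm_num) (by norm_num) hq ht (hs : SCGc (9 / 10))

end Pool.Agent.Lib.MP_6bc78b_nt.GP.H13F
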