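import Mathlib

/-! Plancherel inequality for an integrable function:
`∫ |∫ f(x) e^{itx} dx|² dt ≤ 2π ∫ |f|²`. -/

set_option autoImplicit false

open MeasureTheory Complex Filter Topology ENNReal

namespace Pool.Agent.Lib.MP_6bc78b_nt.GP.H13

/-- The Gaussian `G_ε(v) = sqrt(π/ε) e^{-v²/(4ε)}`. -/
noncomputable def gk (ε v : ℝ) : ℝ := Real.sqrt (Real.pi / ε) * Real.exp (-(v ^ 2) / (4 * ε))

lemma gk_nonneg (ε v : ℝ) : 0 ≤ gk ε v := by unfold gk; positivity

lemma gk_integral {ε : ℝ} (hε : 0 < ε) : ∫ v : ℝ, gk ε v = 2 * Real.pi := by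
  unfold gk
  rw [integral_const_mul]
  have h : ∀ v : ℝ, Real.exp (-(v ^ 2) / (4 * ε)) = Real.exp (-(1 / (4 * ε)) * v ^ 2) := by
    intro v; congr 1; ring
  simp_rw [h]
  rw [integral_gaussian]
  rw [← Real.sqrt_mul (by positivity)]
  rw [show Real.pi / ε * (Real.pi / (1 / (4 * ε))) = (2 * Real.pi) ^ 2 by field_simp; ring]
  exact Real.sqrt_sq (by positivity)

lemma gk_integrable {ε : ℝ} (hε : 0 < ε) : Integrable (gk ε) := by
  unfold gk
  apply Integrable.const_mul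
  have h : (fun v : ℝ => Real.exp (-(v ^ 2) / (4 * ε))) = fun v : ℝ => Real.exp (-(1 / (4 * ε)) * v ^ 2) := by
    funext v; congr 1; ring
  rw [h]
  exact integrable_exp_neg_mul_sq (by positivity)

lemma gk_meas (ε : ℝ) : Measurable (gk ε) := by unfold gk; fun_prop

lemma gk_lintegral {ε : ℝ} (hε : 0 < ε) (x : ℝ) :
    ∫⁻ y : ℝ, ENNReal.ofReal (gk ε (x - y)) = ENNReal.ofReal (2 * Real.pi) := by
  have h1 : ∫⁻ y : ℝ, ENNReal.ofReal (gk ε (x - y)) = ∫⁻ y : ℝ, ENNReal.ofReal (gk ε y) :=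
    lintegral_sub_left_eq_self (fun y => ENNReal.ofReal (gk ε y)) x
  rw [h1, ← ofReal_integral_eq_lintegral_ofReal (gk_integrable hε)
    (Filter.Eventually.of_forall (gk_nonneg ε)), gk_integral hε]

lemma gk_lintegral' {ε : ℝ} (hε : 0 < ε) (y : ℝ) :
    ∫⁻ x : ℝ, ENNReal.ofReal (gk ε (x - y)) = ENNReal.ofReal (2 * Real.pi) := by
  have h1 : ∫⁻ x : ℝ, ENNReal.ofReal (gk ε (x - y)) = ∫⁻ x : ℝ, ENNReal.ofReal (gk ε x) :=
    lintegral_sub_right_eq_self (fun x => ENNReal.ofReal (gk ε x)) y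
  rw [h1, ← ofReal_integral_eq_lintegral_ofReal (gk_integrable hε)
    (Filter.Eventually.of_forall (gk_nonneg ε)), gk_integral hε]

/-- Schur bound for the Gaussian kernel. -/
lemma schur {ε : ℝ} (hε : 0 < ε) (g : ℝ → ℝ≥0∞) (hg : AEMeasurable g) :
    ∫⁻ p : ℝ × ℝ, g p.1 * g p.2 * ENNReal.ofReal (gk ε (p.1 - p.2)) ≤
      ENNReal.ofReal (2 * Real.pi) * ∫⁻ x, g x ^ 2 := by
  have hm : AEMeasurable (fun p : ℝ × ℝ => g p.1 * g p.2) (volume.prod volume) :=
    (hg.comp_quasiMeasurePreserving Measure.quasiMeasurePreserving_fst).mul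
      (hg.comp_quasiMeasurePreserving Measure.quasiMeasurePreserving_snd)
  have hG : Measurable (fun p : ℝ × ℝ => ENNReal.ofReal (gk ε (p.1 - p.2))) :=
    ((gk_meas ε).comp (measurable_fst.sub measurable_snd)).ennreal_ofReal
  have key : ∀ a b : ℝ≥0∞, 2 * (a * b) ≤ a ^ 2 + b ^ 2 := by
    intro a b
    rcases eq_or_ne a ⊤ with rfl | ha
    · simp
    rcases eq_or_ne b ⊤ with rfl | hb
    · simp
    lift a to NNReal using ha
    lift b to NNReal using hb
    norm_cast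
    have := two_mul_le_add_sq (a : ℝ) (b : ℝ)
    rw [← NNReal.coe_le_coe]; push_cast; linarith
  have h2 : (2 : ℝ≥0∞) * ∫⁻ p : ℝ × ℝ, g p.1 * g p.2 * ENNReal.ofReal (gk ε (p.1 - p.2)) ≤
      2 * (ENNReal.ofReal (2 * Real.pi) * ∫⁻ x, g x ^ 2) := by
    have hmul : AEMeasurable (fun p : ℝ × ℝ => g p.1 * g p.2 * ENNReal.ofReal (gk ε (p.1 - p.2)))
        (volume : Measure (ℝ × ℝ)) := hm.mul hG.aemeasurable
    rw [← lintegral_const_mul'' _ hmul]
    have hm1 : AEMeasurable (fun p : ℝ × ℝ => g p.1 ^ 2 * ENNReal.ofReal (gk ε (p.1 - p.2)))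
        (volume.prod volume) :=
      ((hg.comp_quasiMeasurePreserving Measure.quasiMeasurePreserving_fst).pow_const 2).mul
            hG.aemeasurable
    have hm2 : AEMeasurable (fun p : ℝ × ℝ => g p.2 ^ 2 * ENNReal.ofReal (gk ε (p.1 - p.2)))
        (volume.prod volume) :=
      ((hg.comp_quasiMeasurePreserving Measure.quasiMeasurePreserving_snd).pow_const 2).mul
            hG.aemeasurable
    have hA : ∫⁻ p : ℝ × ℝ, g p.1 ^ 2 * ENNReal.ofReal (gk ε (p.1 - p.2)) =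
        ENNReal.ofReal (2 * Real.pi) * ∫⁻ x, g x ^ 2 := by
      rw [show (volume : Measure (ℝ × ℝ)) = volume.prod volume from rfl, lintegral_prod _ hm1,
        ← lintegral_const_mul'' _ (hg.pow_const 2)]
      apply lintegral_congr
      intro x
      simp only []
      rw [lintegral_const_mul _ (by
        have := gk_meas ε
        fun_prop), gk_lintegral hε x, mul_comm]
    have hB : ∫⁻ p : ℝ × ℝ, g p.2 ^ 2 * ENNReal.ofReal (gk ε (p.1 - p.2)) =
        ENNReal.ofReal (2 * Real.pi) * ∫⁻ x, g x ^ 2 := by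
      rw [show (volume : Measure (ℝ × ℝ)) = volume.prod volume from rfl, lintegral_prod_symm _ hm2,
        ← lintegral_const_mul'' _ (hg.pow_const 2)]
      apply lintegral_congr
      intro y
      simp only []
      rw [lintegral_const_mul _ (by
        have := gk_meas ε
        fun_prop), gk_lintegral' hε y, mul_comm]
    calc ∫⁻ p : ℝ × ℝ, 2 * (g p.1 * g p.2 * ENNReal.ofReal (gk ε (p.1 - p.2)))
        ≤ ∫⁻ p : ℝ × ℝ, (g p.1 ^ 2 * ENNReal.ofReal (gk ε (p.1 - p.2)) +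
            g p.2 ^ 2 * ENNReal.ofReal (gk ε (p.1 - p.2))) := by
          apply lintegral_mono
          intro p
          simp only []
          rw [← add_mul, ← mul_assoc, ← mul_assoc, mul_assoc 2]
          exact mul_le_mul_left (key _ _) _
      _ = (∫⁻ p : ℝ × ℝ, g p.1 ^ 2 * ENNReal.ofReal (gk ε (p.1 - p.2))) +
            (∫⁻ p : ℝ × ℝ, g p.2 ^ 2 * ENNReal.ofReal (gk ε (p.1 - p.2))) := by
          apply lintegral_add_left'
          exact hm1
      _ = (ENNReal.ofReal (2 * Real.pi) * ∫⁻ x, g x ^ 2) +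
            (ENNReal.ofReal (2 * Real.pi) * ∫⁻ x, g x ^ 2) := by rw [hA, hB]
      _ = _ := (two_mul _).symm
  exact (ENNReal.mul_le_mul_iff_right (by norm_num) (by norm_num)).1 h2


/-- Fourier transform with kernel `e^{itx}`. -/
noncomputable def FT (f : ℝ → ℂ) (t : ℝ) : ℂ := ∫ x : ℝ, f x * cexp (I * t * x)

lemma FT_sq {f : ℝ → ℂ} (t : ℝ) :
    FT f t * (starRingEnd ℂ) (FT f t) =
      ∫ p : ℝ × ℝ, f p.1 * (starRingEnd ℂ) (f p.2) * cexp (I * t * (p.1 - p.2)) := by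
  unfold FT
  rw [← integral_conj]
  rw [show (volume : Measure (ℝ × ℝ)) = volume.prod volume from rfl, ← integral_prod_mul]
  apply integral_congr_ae
  filter_upwards with p
  rw [map_mul, ← Complex.exp_conj]
  simp only [map_mul, Complex.conj_I, Complex.conj_ofReal]
  rw [show I * (t : ℂ) * ((p.1 : ℂ) - p.2) = I * t * p.1 + -I * t * p.2 by ring, Complex.exp_add]
  ring

lemma gauss_inner {ε : ℝ} (hε : 0 < ε) (v : ℝ) :
    ∫ t : ℝ, cexp (I * t * v) * ((Real.exp (-ε * t ^ 2) : ℝ) : ℂ) = (gk ε v : ℂ) := by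
  have h := fourierIntegral_gaussian (b := (ε : ℂ)) (by simpa using hε) (v : ℂ)
  have h2 : ∀ t : ℝ, cexp (I * t * v) * ((Real.exp (-ε * t ^ 2) : ℝ) : ℂ) =
      cexp (I * v * t) * cexp (-ε * t ^ 2) := by
    intro t
    push_cast
    ring_nf
  simp_rw [h2]
  rw [h]
  unfold gk
  push_cast
  congr 1
  · rw [Real.sqrt_eq_rpow, Complex.ofReal_cpow (by positivity)]
    push_cast
    norm_num

lemma FT_norm_le {f : ℝ → ℂ} (t : ℝ) : ‖FT f t‖ ≤ ∫ x, ‖f x‖ := by
  unfold FT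
  refine (norm_integral_le_integral_norm _).trans (le_of_eq ?_)
  congr 1
  funext x
  rw [norm_mul, show I * (t : ℂ) * x = ((t * x : ℝ) : ℂ) * I by push_cast; ring,
    Complex.norm_exp_ofReal_mul_I, mul_one]

lemma FT_continuous {f : ℝ → ℂ} (hf : Integrable f) : Continuous (FT f) := by
  unfold FT
  apply continuous_of_dominated (bound := fun x => ‖f x‖)
  · intro t
    exact hf.aestronglyMeasurable.mul (by fun_prop : Continuous fun x : ℝ => cexp (I * t * x)).aestronglyMeasurable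
  · intro t
    filter_upwards with x
    rw [norm_mul, show I * (t : ℂ) * x = ((t * x : ℝ) : ℂ) * I by push_cast; ring,
      Complex.norm_exp_ofReal_mul_I, mul_one]
  · exact hf.norm
  · filter_upwards with x
    fun_prop

lemma step1 {f : ℝ → ℂ} (hf : Integrable f) {ε : ℝ} (hε : 0 < ε) :
    ∫⁻ t : ℝ, ‖FT f t‖ₑ ^ 2 * ENNReal.ofReal (Real.exp (-ε * t ^ 2)) ≤
      ENNReal.ofReal (2 * Real.pi) * ∫⁻ x, ‖f x‖ₑ ^ 2 := by
  have hgi : Integrable (fun t : ℝ => Real.exp (-ε * t ^ 2)) := integrable_exp_neg_mul_sq hε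
  -- the left side as the norm of a complex integral
  have hprod : Integrable (fun p : ℝ × ℝ => f p.1 * (starRingEnd ℂ) (f p.2)) (volume.prod volume) :=
    hf.mul_prod (f := f) (g := fun y => (starRingEnd ℂ) (f y)) (by
      have := hf.norm
      refine ⟨(Complex.continuous_conj.comp_aestronglyMeasurable hf.aestronglyMeasurable), ?_⟩
      have h2 := hf.hasFiniteIntegral
      unfold HasFiniteIntegral at *
      simpa using h2)
  have hint : Integrable (fun q : ℝ × (ℝ × ℝ) => (f q.2.1 * (starRingEnd ℂ) (f q.2.2) *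
      cexp (I * q.1 * (q.2.1 - q.2.2))) * ((Real.exp (-ε * q.1 ^ 2) : ℝ) : ℂ))
      (volume.prod (volume.prod volume)) := by
    have h0 : Integrable (fun q : ℝ × (ℝ × ℝ) => ((Real.exp (-ε * q.1 ^ 2) : ℝ) : ℂ) *
        (f q.2.1 * (starRingEnd ℂ) (f q.2.2))) (volume.prod (volume.prod volume)) :=
      Integrable.mul_prod (f := fun t : ℝ => ((Real.exp (-ε * t ^ 2) : ℝ) : ℂ)) hgi.ofReal hprod
    refine h0.mono ?_ ?_
    · have h1 := h0.aestronglyMeasurable
      have h2 : (fun q : ℝ × (ℝ × ℝ) => (f q.2.1 * (starRingEnd ℂ) (f q.2.2) *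
          cexp (I * q.1 * (q.2.1 - q.2.2))) * ((Real.exp (-ε * q.1 ^ 2) : ℝ) : ℂ)) =
          fun q : ℝ × (ℝ × ℝ) => (((Real.exp (-ε * q.1 ^ 2) : ℝ) : ℂ) *
        (f q.2.1 * (starRingEnd ℂ) (f q.2.2))) * cexp (I * q.1 * (q.2.1 - q.2.2)) := by
        funext q; ring
      rw [h2]
      exact h1.mul (by fun_prop : Continuous fun q : ℝ × (ℝ × ℝ) =>
        cexp (I * q.1 * (q.2.1 - q.2.2))).aestronglyMeasurable
    · filter_upwards with q
      rw [norm_mul, norm_mul (_ * _), norm_mul ((Real.exp (-ε * q.1 ^ 2) : ℝ) : ℂ),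
        show I * (q.1 : ℂ) * ((q.2.1 : ℂ) - q.2.2) = ((q.1 * (q.2.1 - q.2.2) : ℝ) : ℂ) * I by
          push_cast; ring,
        Complex.norm_exp_ofReal_mul_I, mul_one, mul_comm]
  have hkey : ∫ t : ℝ, (FT f t * (starRingEnd ℂ) (FT f t)) * ((Real.exp (-ε * t ^ 2) : ℝ) : ℂ) =
      ∫ p : ℝ × ℝ, f p.1 * (starRingEnd ℂ) (f p.2) * (gk ε (p.1 - p.2) : ℂ) := by
    have h1 : ∀ t : ℝ, (FT f t * (starRingEnd ℂ) (FT f t)) * ((Real.exp (-ε * t ^ 2) : ℝ) : ℂ) =
        ∫ p : ℝ × ℝ, (f p.1 * (starRingEnd ℂ) (f p.2) * cexp (I * t * (p.1 - p.2))) *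
          ((Real.exp (-ε * t ^ 2) : ℝ) : ℂ) ∂(volume.prod volume) := by
      intro t
      rw [FT_sq t, ← integral_mul_const]
      rfl
    simp_rw [h1]
    rw [integral_integral_swap hint]
    apply integral_congr_ae
    filter_upwards with p
    have h3 : ∀ t : ℝ, (f p.1 * (starRingEnd ℂ) (f p.2) * cexp (I * t * (p.1 - p.2))) *
          ((Real.exp (-ε * t ^ 2) : ℝ) : ℂ) = (f p.1 * (starRingEnd ℂ) (f p.2)) *
          (cexp (I * t * ((p.1 - p.2 : ℝ) : ℂ)) * ((Real.exp (-ε * t ^ 2) : ℝ) : ℂ)) := by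
      intro t; push_cast; ring
    simp_rw [h3]
    rw [integral_const_mul, gauss_inner hε]
  -- real form
  have hnn : ∀ t : ℝ, (FT f t * (starRingEnd ℂ) (FT f t)) * ((Real.exp (-ε * t ^ 2) : ℝ) : ℂ) =
      ((‖FT f t‖ ^ 2 * Real.exp (-ε * t ^ 2) : ℝ) : ℂ) := by
    intro t
    rw [Complex.mul_conj, Complex.normSq_eq_norm_sq]
    push_cast; ring
  have hfi : Integrable (fun t : ℝ => ‖FT f t‖ ^ 2 * Real.exp (-ε * t ^ 2)) := by
    apply Integrable.mono' (hgi.const_mul ((∫ x, ‖f x‖) ^ 2))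
    · exact (((FT_continuous hf).norm.pow 2).mul (by fun_prop)).aestronglyMeasurable
    · filter_upwards with t
      rw [Real.norm_eq_abs, abs_of_nonneg (by positivity)]
      exact mul_le_mul_of_nonneg_right (pow_le_pow_left₀ (norm_nonneg _) (FT_norm_le t) 2)
        (Real.exp_pos _).le
  have hL : ∫⁻ t : ℝ, ‖FT f t‖ₑ ^ 2 * ENNReal.ofReal (Real.exp (-ε * t ^ 2)) =
      ENNReal.ofReal (∫ t : ℝ, ‖FT f t‖ ^ 2 * Real.exp (-ε * t ^ 2)) := by
    rw [ofReal_integral_eq_lintegral_ofReal hfi (Filter.Eventually.of_forall fun t => by positivity)]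
    apply lintegral_congr
    intro t
    rw [ENNReal.ofReal_mul (by positivity), ENNReal.ofReal_pow (norm_nonneg _), ofReal_norm]
  rw [hL]
  have hR : (∫ t : ℝ, ‖FT f t‖ ^ 2 * Real.exp (-ε * t ^ 2)) =
      ‖∫ p : ℝ × ℝ, f p.1 * (starRingEnd ℂ) (f p.2) * (gk ε (p.1 - p.2) : ℂ)‖ := by
    rw [← hkey]
    simp_rw [hnn]
    rw [integral_complex_ofReal, Complex.norm_real, Real.norm_eq_abs, abs_of_nonneg]
    apply integral_nonneg
    intro t
    positivity
  rw [hR, ofReal_norm]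
  refine (enorm_integral_le_lintegral_enorm _).trans ?_
  have h5 := schur hε (fun x => ‖f x‖ₑ) hf.aestronglyMeasurable.enorm
  refine le_trans (le_of_eq ?_) h5
  apply lintegral_congr
  intro p
  rw [enorm_mul, enorm_mul]
  congr 1
  · congr 1
    exact RCLike.enorm_conj _
  · rw [← ofReal_norm, Complex.norm_real, Real.norm_eq_abs, abs_of_nonneg (gk_nonneg _ _)]

/-- Plancherel's inequality. -/
theorem plancherel_le {f : ℝ → ℂ} (hf : Integrable f) :
    ∫⁻ t : ℝ, ‖FT f t‖ₑ ^ 2 ≤ ENNReal.ofReal (2 * Real.pi) * ∫⁻ x, ‖f x‖ₑ ^ 2 := by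
  have hlim : ∀ t : ℝ, Tendsto (fun n : ℕ => ‖FT f t‖ₑ ^ 2 *
      ENNReal.ofReal (Real.exp (-(1 / ((n : ℝ) + 1)) * t ^ 2))) atTop (𝓝 (‖FT f t‖ₑ ^ 2)) := by
    intro t
    have h1 : Tendsto (fun n : ℕ => Real.exp (-(1 / ((n : ℝ) + 1)) * t ^ 2)) atTop (𝓝 1) := by
      have h2 : Tendsto (fun n : ℕ => -(1 / ((n : ℝ) + 1)) * t ^ 2) atTop (𝓝 (-0 * t ^ 2)) :=
        (tendsto_one_div_add_atTop_nhds_zero_nat.neg).mul_const _
      have h3 := (Real.continuous_exp.tendsto _).comp h2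
      simp only [neg_zero, zero_mul, Real.exp_zero] at h3
      exact h3
    have h4 := ENNReal.tendsto_ofReal h1
    have h5 := ENNReal.Tendsto.const_mul (a := ‖FT f t‖ₑ ^ 2) h4 (Or.inl (by simp))
    simpa using h5
  calc ∫⁻ t : ℝ, ‖FT f t‖ₑ ^ 2
      = ∫⁻ t : ℝ, Filter.liminf (fun n : ℕ => ‖FT f t‖ₑ ^ 2 *
          ENNReal.ofReal (Real.exp (-(1 / ((n : ℝ) + 1)) * t ^ 2))) atTop := by
        apply lintegral_congr
        intro t
        exact (hlim t).liminf_eq.symm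
    _ ≤ Filter.liminf (fun n : ℕ => ∫⁻ t : ℝ, ‖FT f t‖ₑ ^ 2 *
          ENNReal.ofReal (Real.exp (-(1 / ((n : ℝ) + 1)) * t ^ 2))) atTop := by
        apply lintegral_liminf_le'
        intro n
        exact ((FT_continuous hf).enorm.measurable.pow_const 2).mul (by fun_prop) |>.aemeasurable
    _ ≤ _ := by
        refine Filter.liminf_le_of_le (by isBoundedDefault) ?_
        intro b hb
        obtain ⟨n, hn⟩ := hb.exists
        exact hn.trans (step1 hf (by positivity))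

end Pool.Agent.Lib.MP_6bc78b_nt.GP.H13
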