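import Pool.Agent.Lib.MP_6bc78b_nt.GP.Iface
import Pool.Agent.Lib.MP_6bc78b_nt.GP.H13.Planch

set_option autoImplicit false

open MeasureTheory Complex Filter Topology ENNReal

namespace Pool.Agent.Lib.MP_6bc78b_nt.GP.H13

theorem plc : PLCStatement := by
  intro g hg
  have h := plancherel_le hg
  have h1 : ∀ x : ℝ, ENNReal.ofReal (‖∫ w : ℝ, g w * Complex.exp (x * w * I)‖ ^ 2) = ‖FT g x‖ₑ ^ 2 := by
    intro x
    rw [ENNReal.ofReal_pow (norm_nonneg _), ofReal_norm]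
    unfold FT
    congr 3
    funext w
    congr 2
    ring
  have h2 : ∀ x : ℝ, ENNReal.ofReal (‖g x‖ ^ 2) = ‖g x‖ₑ ^ 2 := by
    intro x
    rw [ENNReal.ofReal_pow (norm_nonneg _), ofReal_norm]
  simp_rw [h1, h2]
  exact h

end Pool.Agent.Lib.MP_6bc78b_nt.GP.H13
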